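import Pool.Agent.HMT.Stmts

/-!
Squad HMT, row CAN: cancellation.
-/

namespace Pool.Agent.HMT.H45

open Polynomial

theorem rel_insert (F : Fr) (ε : ℤˣ) (Z : Finset F.R) (r : F.R) (a b : F.Vert ε)
    (h : ¬ (a = Sum.inr (F.par r) ∧ b = Sum.inr (Sum.inr r))) :
    F.rel ε Z a b ↔ F.rel ε (insert r Z) a b := by
  rcases a with ⟨g, x⟩ | p
  · rcases b with ⟨g', x'⟩ | (j | r')
    · exact Iff.rfl
    · exact Iff.rfl
    · exact Iff.rfl
  · rcases b with ⟨g', x'⟩ | (j | r')
    · exact Iff.rfl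
    · exact Iff.rfl
    · show p = F.par r' ∧ r' ∈ Z ↔ p = F.par r' ∧ r' ∈ insert r Z
      constructor
      · rintro ⟨h1, h2⟩
        exact ⟨h1, Finset.mem_insert_of_mem h2⟩
      · rintro ⟨h1, h2⟩
        rcases Finset.mem_insert.1 h2 with h3 | h3
        · subst h3
          subst h1
          exact absurd ⟨rfl, rfl⟩ h
        · exact ⟨h1, h3⟩

theorem val_insert (F : Fr) (P : GProp) (ε : ℤˣ) (Z : Finset F.R) (π : Setoid (F.Vert ε))
    (r : F.R) (hr : ¬ F.Ins π r) : F.Val P ε (insert r Z) π ↔ F.Val P ε Z π := by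
  have key : ∀ v, (F.Gr ε (insert r Z)).induce {w | π.r w v} = (F.Gr ε Z).induce {w | π.r w v} := by
    intro v
    ext ⟨a, ha⟩ ⟨b, hb⟩
    have ha' : π.r a v := ha
    have hb' : π.r b v := hb
    have h1 : ∀ c d : F.Vert ε, π.r c v → π.r d v →
        ¬ (c = Sum.inr (F.par r) ∧ d = Sum.inr (Sum.inr r)) := by
      rintro c d hc hd ⟨rfl, rfl⟩
      exact hr (π.iseqv.trans hc (π.iseqv.symm hd))
    simp only [SimpleGraph.comap_adj, Fr.Gr, SimpleGraph.fromRel_adj, Function.Embedding.subtype_apply]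
    rw [← rel_insert F ε Z r a b (h1 a b ha' hb'), ← rel_insert F ε Z r b a (h1 b a hb' ha')]
  unfold Fr.Val
  simp only [key]

theorem can : CanStmt := by
  classical
  intro F P ε A π r hr hins
  have hA : A = insert r (A.erase r) := (Finset.insert_erase hr).symm
  rw [hA, Finset.sum_powerset_insert (Finset.notMem_erase r A), ← Finset.sum_add_distrib]
  apply Finset.sum_eq_zero
  intro Z hZ
  have hrZ : r ∉ Z := fun h => Finset.notMem_erase r A (Finset.mem_powerset.1 hZ h)
  rw [Finset.card_insert_of_notMem hrZ]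
  have hv := val_insert F P ε Z π r hins
  by_cases h : F.Val P ε Z π
  · rw [if_pos h, if_pos (hv.2 h)]
    ring
  · rw [if_neg h, if_neg (fun h' => h (hv.1 h'))]
    ring

end Pool.Agent.HMT.H45
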